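import Pool.Agent.TH855.Veronese.Count

set_option autoImplicit false

namespace Pool.TH855.VeroneseZ

open MvPolynomial Finset Pool.TH855.Veronese

variable {n d : ℕ}

/-- the monomial `x_0^{d-1} ⋯ x_{s-1}^{d-1} x_s^c` -/
noncomputable def fexp (n d q c : ℕ) : Fin (n + 1) →₀ ℕ :=
  Finsupp.equivFunOnFinite.symm
    (fun i => if i.1 < q then d - 1 else if i.1 = q then c else 0)

lemma fexp_apply (q c : ℕ) (i : Fin (n + 1)) :
    fexp n d q c i = if i.1 < q then d - 1 else if i.1 = q then c else 0 := rfl

lemma degree_fexp (q c : ℕ) (hq : q ≤ n) (_hd : 1 ≤ d) : (fexp n d q c).degree = q * (d - 1) + c := by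
  rw [Finsupp.degree_eq_sum]
  simp only [fexp_apply]
  have h1 : ∀ i : Fin (n + 1), (if i.1 < q then d - 1 else if i.1 = q then c else 0) =
      (if i.1 < q then d - 1 else 0) + (if i.1 = q then c else 0) := by
    intro i
    split_ifs <;> omega
  rw [sum_congr rfl fun i _ => h1 i, sum_add_distrib]
  have h2 : ∑ i : Fin (n + 1), (if i.1 < q then d - 1 else 0) = q * (d - 1) := by
    rw [← sum_filter, sum_const, smul_eq_mul]
    congr 1
    have : (univ.filter fun i : Fin (n + 1) => i.1 < q) = Iio (⟨q, by omega⟩ : Fin (n + 1)) := by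
      ext i
      simp [Fin.lt_def]
    rw [this, Fin.card_Iio]
  have h3 : ∑ i : Fin (n + 1), (if i.1 = q then c else 0) = c := by
    rw [sum_eq_single_of_mem (⟨q, by omega⟩ : Fin (n + 1)) (mem_univ _)]
    · simp
    · intro i _ hi
      rw [if_neg]
      intro h
      exact hi (Fin.ext h)
  rw [h2, h3]

open Classical in
/-- monomials of degree `d` dividing `f` -/
noncomputable def DD (n d q c : ℕ) : Finset (Mon n d) := univ.filter fun a => a.exp ≤ fexp n d q c

open Classical in
/-- monomials of degree `d`, not pure powers, killing `f` modulo the `x_i^d` -/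
noncomputable def ZZ (n d q c : ℕ) : Finset (Mon n d) :=
  univ.filter fun a => (∀ i, a ≠ pure n d i) ∧ ∃ j, d ≤ fexp n d q c j + a.exp j

lemma mem_DD {q c : ℕ} {a : Mon n d} : a ∈ DD n d q c ↔ a.exp ≤ fexp n d q c := by
  simp [DD]

lemma mem_ZZ {q c : ℕ} {a : Mon n d} : a ∈ ZZ n d q c ↔
    (∀ i, a ≠ pure n d i) ∧ ∃ j, d ≤ fexp n d q c j + a.exp j := by
  simp [ZZ]

lemma card_filter_exp (P : (Fin (n + 1) →₀ ℕ) → Prop) [DecidablePred P]
    [DecidablePred fun a : Mon n d => P a.exp] :
    (univ.filter fun a : Mon n d => P a.exp).card = ((finsuppAntidiag univ d).filter P).card := by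
  rw [← card_map ⟨Mon.exp, Mon.exp_injective n d⟩]
  congr 1
  ext a
  simp only [mem_map, mem_filter, mem_univ, true_and, Function.Embedding.coeFn_mk, mem_antidiag,
    not_true_eq_false, false_implies, implies_true, and_true]
  constructor
  · rintro ⟨x, hx, rfl⟩
    exact ⟨x.degree_exp, hx⟩
  · rintro ⟨h1, h2⟩
    exact ⟨⟨a, h1⟩, h2, rfl⟩

lemma pure_iff (a : Mon n d) (i : Fin (n + 1)) : a = pure n d i ↔ a.exp = Finsupp.single i d :=
  ⟨fun h => by rw [h]; rfl, fun h => Mon.ext h⟩

lemma card_DD (q c : ℕ) (hq : q ≤ n) (hd : c + 1 ≤ d) :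
    (DD n d q c).card + (d + q - c - 1).choose q + q = (d + q).choose q := by
  classical
  set qi : Fin (n + 1) := ⟨q, by omega⟩ with hqi
  have hA : (finsuppAntidiag (Iic qi) d).card = (d + q).choose q := by
    rw [card_finsuppAntidiag_nat_eq_choose, Fin.card_Iic, hqi]
    simp only
    rw [show q + 1 + d - 1 = d + q by omega]
    exact Nat.choose_symm_add
  have hB : ((finsuppAntidiag (Iic qi) d).filter (fun a => c + 1 ≤ a qi)).card =
      (d + q - c - 1).choose q := by
    rw [card_shift _ (mem_Iic.2 le_rfl) (by omega), Fin.card_Iic, hqi]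
    simp only
    rw [show q + 1 + (d - (c + 1)) - 1 = d + q - c - 1 by omega]
    rw [← Nat.choose_symm (by omega)]
    congr 1
    omega
  have hP : ((Iio qi).image (fun i => (Finsupp.single i d : Fin (n + 1) →₀ ℕ))).card = q := by
    rw [card_image_single _ (by omega), Fin.card_Iio]
  have hDc : (DD n d q c).card =
      ((finsuppAntidiag univ d).filter (fun a => a ≤ fexp n d q c)).card := by
    unfold DD
    exact card_filter_exp (fun a => a ≤ fexp n d q c)
  have key : finsuppAntidiag (Iic qi) d =
      ((finsuppAntidiag univ d).filter (fun a => a ≤ fexp n d q c)) ∪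
      ((finsuppAntidiag (Iic qi) d).filter (fun a => c + 1 ≤ a qi)) ∪
      ((Iio qi).image (fun i => (Finsupp.single i d : Fin (n + 1) →₀ ℕ))) := by
    ext a
    simp only [mem_union, mem_filter, mem_antidiag, mem_univ, not_true_eq_false, false_implies,
      implies_true, and_true, mem_image, mem_Iio, mem_Iic]
    constructor
    · rintro ⟨h1, h2⟩
      by_cases h3 : c + 1 ≤ a qi
      · exact Or.inl (Or.inr ⟨⟨h1, h2⟩, h3⟩)
      by_cases h4 : ∃ i, i < qi ∧ d ≤ a i
      · obtain ⟨i, hi, h5⟩ := h4
        exact Or.inr ⟨i, hi, (eq_single h1 h5).symm⟩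
      push Not at h4
      left; left
      refine ⟨h1, fun i => ?_⟩
      rw [fexp_apply]
      split_ifs with h5 h6
      · have := h4 i (by rw [Fin.lt_def]; exact h5)
        omega
      · have : i = qi := Fin.ext h6
        rw [this]; omega
      · rw [h2 i (by rw [Fin.le_def]; simp only [hqi]; omega)]
    · rintro ((⟨h1, h2⟩ | ⟨⟨h1, h2⟩, h3⟩) | ⟨i, hi, rfl⟩)
      · refine ⟨h1, fun i hi => ?_⟩
        have h3 := h2 i
        rw [fexp_apply] at h3
        rw [Fin.le_def] at hi
        simp only [hqi] at hi
        rw [if_neg (by omega), if_neg (by omega)] at h3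
        omega
      · exact ⟨h1, h2⟩
      · refine ⟨Finsupp.degree_single _ _, fun j hj => ?_⟩
        rw [Finsupp.single_apply, if_neg]
        rintro rfl
        exact hj hi.le
  have hdis1 : Disjoint ((finsuppAntidiag univ d).filter (fun a => a ≤ fexp n d q c))
      ((finsuppAntidiag (Iic qi) d).filter (fun a => c + 1 ≤ a qi)) := by
    rw [disjoint_left]
    intro a ha hb
    have h1 := (mem_filter.1 ha).2 qi
    have h2 := (mem_filter.1 hb).2
    rw [fexp_apply] at h1
    simp only [hqi, lt_irrefl, if_false, if_true] at h1 h2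
    omega
  have hdis2 : Disjoint (((finsuppAntidiag univ d).filter (fun a => a ≤ fexp n d q c)) ∪
      ((finsuppAntidiag (Iic qi) d).filter (fun a => c + 1 ≤ a qi)))
      ((Iio qi).image (fun i => (Finsupp.single i d : Fin (n + 1) →₀ ℕ))) := by
    rw [disjoint_left]
    intro a ha hb
    obtain ⟨i, hi, rfl⟩ := mem_image.1 hb
    rw [mem_Iio, Fin.lt_def] at hi
    rcases mem_union.1 ha with h | h
    · have h1 := (mem_filter.1 h).2 i
      rw [fexp_apply, Finsupp.single_eq_same, if_pos hi] at h1
      omega
    · have h1 := (mem_filter.1 h).2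
      rw [Finsupp.single_apply, if_neg] at h1
      · omega
      · rintro rfl
        exact lt_irrefl _ hi
  have := congrArg Finset.card key
  rw [card_union_of_disjoint hdis2, card_union_of_disjoint hdis1, hA, hB, hP, ← hDc] at this
  exact this.symm

lemma card_ZZ (q c : ℕ) (hq : q ≤ n) (hd : c + 1 ≤ d) :
    (ZZ n d q c).card + (d + n - q).choose (n - q) + q + 1 =
      (d + n).choose n + (n - q + c).choose (n - q) := by
  classical
  set qi : Fin (n + 1) := ⟨q, by omega⟩ with hqi
  have hA : (finsuppAntidiag (Ici qi) d).card = (d + n - q).choose (n - q) := by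
    rw [card_finsuppAntidiag_nat_eq_choose, Fin.card_Ici, hqi]
    simp only
    rw [show n + 1 - q + d - 1 = d + (n - q) by omega, show d + n - q = d + (n - q) by omega]
    exact Nat.choose_symm_add
  have hB : ((finsuppAntidiag (Ici qi) d).filter (fun a => d - (c) ≤ a qi)).card =
      (n - q + c).choose (n - q) := by
    rw [card_shift _ (mem_Ici.2 le_rfl) (by omega), Fin.card_Ici, hqi]
    simp only
    rw [show n + 1 - q + (d - (d - (c))) - 1 = n - q + c by omega]
    rw [← Nat.choose_symm (by omega)]
    congr 1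
    omega
  have hP : ((Ioi qi).image (fun i => (Finsupp.single i d : Fin (n + 1) →₀ ℕ))).card = n - q := by
    rw [card_image_single _ (by omega), Fin.card_Ioi]
    simp only [hqi]
    omega
  have hM : (finsuppAntidiag (univ : Finset (Fin (n + 1))) d).card = (d + n).choose n := by
    rw [card_finsuppAntidiag_nat_eq_choose, card_univ, Fintype.card_fin]
    rw [show n + 1 + d - 1 = d + n by omega]
    exact Nat.choose_symm_add
  have hQ : ((univ : Finset (Fin (n + 1))).image
      (fun i => (Finsupp.single i d : Fin (n + 1) →₀ ℕ))).card = n + 1 := by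
    rw [card_image_single _ (by omega), card_univ, Fintype.card_fin]
  -- the set N
  set N : Finset (Fin (n + 1) →₀ ℕ) := (finsuppAntidiag univ d).filter
    (fun a => (∀ i, a ≠ Finsupp.single i d) ∧ ∀ j, fexp n d q c j + a j < d) with hN
  set Z' : Finset (Fin (n + 1) →₀ ℕ) := (finsuppAntidiag univ d).filter
    (fun a => (∀ i, a ≠ Finsupp.single i d) ∧ ∃ j, d ≤ fexp n d q c j + a j) with hZ'
  have hZc : (ZZ n d q c).card = Z'.card := by
    unfold ZZ
    rw [hZ', ← card_filter_exp]
    congr 1
    ext a
    simp only [mem_filter, mem_univ, true_and, Ne, pure_iff]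
  have key1 : finsuppAntidiag (univ : Finset (Fin (n + 1))) d = Z' ∪ N ∪
      ((univ : Finset (Fin (n + 1))).image (fun i => (Finsupp.single i d : Fin (n + 1) →₀ ℕ))) := by
    ext a
    simp only [hZ', hN, mem_union, mem_filter, mem_antidiag, mem_univ, not_true_eq_false,
      false_implies, implies_true, and_true, mem_image, true_and]
    constructor
    · intro h1
      by_cases h2 : ∃ i, Finsupp.single i d = a
      · exact Or.inr h2
      · push Not at h2
        left
        by_cases h3 : ∃ j, d ≤ fexp n d q c j + a j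
        · exact Or.inl ⟨h1, fun i => (h2 i).symm, h3⟩
        · push Not at h3
          exact Or.inr ⟨h1, fun i => (h2 i).symm, h3⟩
    · rintro ((⟨h1, _⟩ | ⟨h1, _⟩) | ⟨i, rfl⟩)
      · exact h1
      · exact h1
      · exact Finsupp.degree_single _ _
  have hd1 : Disjoint Z' N := by
    rw [disjoint_left]
    intro a ha hb
    obtain ⟨_, j, hj⟩ := (mem_filter.1 ha).2
    have := (mem_filter.1 hb).2.2 j
    omega
  have hd2 : Disjoint (Z' ∪ N) ((univ : Finset (Fin (n + 1))).image
      (fun i => (Finsupp.single i d : Fin (n + 1) →₀ ℕ))) := by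
    rw [disjoint_left]
    intro a ha hb
    obtain ⟨i, _, rfl⟩ := mem_image.1 hb
    rcases mem_union.1 ha with h | h
    · exact (mem_filter.1 h).2.1 i rfl
    · exact (mem_filter.1 h).2.1 i rfl
  have e1 := congrArg Finset.card key1
  rw [card_union_of_disjoint hd2, card_union_of_disjoint hd1, hM, hQ] at e1
  have key2 : finsuppAntidiag (Ici qi) d = N ∪
      ((finsuppAntidiag (Ici qi) d).filter (fun a => d - (c) ≤ a qi)) ∪
      ((Ioi qi).image (fun i => (Finsupp.single i d : Fin (n + 1) →₀ ℕ))) := by
    ext a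
    simp only [hN, mem_union, mem_filter, mem_antidiag, mem_univ, not_true_eq_false, false_implies,
      implies_true, and_true, mem_image, mem_Ioi, mem_Ici]
    constructor
    · rintro ⟨h1, h2⟩
      by_cases h3 : d - (c) ≤ a qi
      · exact Or.inl (Or.inr ⟨⟨h1, h2⟩, h3⟩)
      by_cases h4 : ∃ i, qi < i ∧ d ≤ a i
      · obtain ⟨i, hi, h5⟩ := h4
        exact Or.inr ⟨i, hi, (eq_single h1 h5).symm⟩
      push Not at h4
      left; left
      have h6 : ∀ i : Fin (n + 1), i.1 < q → a i = 0 := fun i hi =>
        h2 i (by rw [Fin.le_def]; simp only [hqi]; omega)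
      refine ⟨h1, fun i hai => ?_, fun i => ?_⟩
      · have h7 : a i = d := by rw [hai, Finsupp.single_eq_same]
        rcases lt_trichotomy i.1 q with h | h | h
        · rw [h6 i h] at h7; omega
        · have : i = qi := Fin.ext h
          rw [this] at h7; omega
        · have := h4 i (by rw [Fin.lt_def]; exact h)
          omega
      · rw [fexp_apply]
        split_ifs with h5 h7
        · rw [h6 i h5]; omega
        · have : i = qi := Fin.ext h7
          rw [this]; omega
        · have := h4 i (by rw [Fin.lt_def]; simp only [hqi]; omega)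
          omega
    · rintro ((⟨h1, _, h2⟩ | ⟨⟨h1, h2⟩, h3⟩) | ⟨i, hi, rfl⟩)
      · refine ⟨h1, fun i hi => ?_⟩
        have h3 := h2 i
        rw [fexp_apply] at h3
        rw [Fin.le_def] at hi
        simp only [hqi] at hi
        rw [if_pos (by omega)] at h3
        omega
      · exact ⟨h1, h2⟩
      · refine ⟨Finsupp.degree_single _ _, fun j hj => ?_⟩
        rw [Finsupp.single_apply, if_neg]
        rintro rfl
        exact hj hi.le
  have hdis1 : Disjoint N
      ((finsuppAntidiag (Ici qi) d).filter (fun a => d - (c) ≤ a qi)) := by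
    rw [disjoint_left]
    intro a ha hb
    have h1 := (mem_filter.1 ha).2.2 qi
    have h2 := (mem_filter.1 hb).2
    rw [fexp_apply] at h1
    simp only [hqi, lt_irrefl, if_false, if_true] at h1 h2
    omega
  have hdis2 : Disjoint (N ∪
      ((finsuppAntidiag (Ici qi) d).filter (fun a => d - (c) ≤ a qi)))
      ((Ioi qi).image (fun i => (Finsupp.single i d : Fin (n + 1) →₀ ℕ))) := by
    rw [disjoint_left]
    intro a ha hb
    obtain ⟨i, hi, rfl⟩ := mem_image.1 hb
    rw [mem_Ioi, Fin.lt_def] at hi
    rcases mem_union.1 ha with h | h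
    · exact (mem_filter.1 h).2.1 i rfl
    · have h1 := (mem_filter.1 h).2
      rw [Finsupp.single_apply, if_neg] at h1
      · omega
      · rintro rfl
        exact lt_irrefl _ hi
  have e2 := congrArg Finset.card key2
  rw [card_union_of_disjoint hdis2, card_union_of_disjoint hdis1, hA, hB, hP] at e2
  omega

end Pool.TH855.VeroneseZ
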