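import Pool.Agent.TH855.VeroneseZ.Count
import Pool.Agent.TH855.Veronese.Complex

set_option autoImplicit false

namespace Pool.TH855.VeroneseZ

open MvPolynomial Finset Pool.TH855.Veronese

variable (k : Type) [Field k] (n d : ℕ)

/-- `Λ^p(S_d) ⊗ S_m` for an integer `m` (zero for `m < 0`). -/
noncomputable def chainsZ (p : ℕ) (m : ℤ) : Submodule k (Fam k n d) :=
  if 0 ≤ m then chains k n d p m.toNat else ⊥

variable [LinearOrder (Mon n d)]

/-- Cycles in `Λ^p(S_d) ⊗ S_m`. -/
noncomputable def cyclesZ (p : ℕ) (m : ℤ) : Submodule k (Fam k n d) :=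
  chainsZ k n d p m ⊓ LinearMap.ker (diff k n d)

/-- `K_{p,q}(P^n, b; d) = Tor_p(S(b;d), k)_{p+q}` for arbitrary integers `b`, `q`, computed by the
Koszul complex: the homology at the middle of
`Λ^{p+1}(S_d) ⊗ S_{(q-1)d+b} → Λ^p(S_d) ⊗ S_{qd+b} → Λ^{p-1}(S_d) ⊗ S_{(q+1)d+b}`. -/
abbrev KpqZ (b : ℤ) (p : ℕ) (q : ℤ) : Type :=
  ↥(cyclesZ k n d p (q * d + b)) ⧸
    ((chainsZ k n d (p + 1) ((q - 1) * d + b)).map (diff k n d)).submoduleOf
      (cyclesZ k n d p (q * d + b))

variable {k n d}

theorem rank_bound_gen (f : Fin (n + 1) →₀ ℕ) (p e : ℕ) (hf : f.degree = e)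
    (D Z : Finset (Mon n d)) (j : Mon n d → Fin (n + 1))
    (hj : ∀ a ∈ Z, d ≤ f (j a) + a.exp (j a)) (hZ : ∀ a ∈ Z, ∀ i, a ≠ pure n d i)
    (hD : ∀ a : Mon n d, a.exp ≤ f → a ∈ D) (hDZ : D ⊆ Z) (h1 : D.card ≤ p)
    (Cy Bd : Submodule k (Fam k n d)) (hCy : Cy = cycles k n d p e)
    (hBd : Bd ≤ LinearMap.range (diff k n d)) :
    (((Z.card - D.card).choose (p - D.card) : ℕ) : Cardinal) ≤
      Module.rank k (↥Cy ⧸ Bd.submoduleOf Cy) := by
  classical
  subst hCy
  set ι := {T // T ∈ (Z \ D).powersetCard (p - D.card)} with hι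
  have hl : ∀ T : ι, D ∪ T.1 ⊆ Z ∧ (D ∪ T.1).card = p := by
    intro T
    obtain ⟨h3, h4⟩ := mem_powersetCard.1 T.2
    refine ⟨union_subset hDZ (h3.trans sdiff_subset), ?_⟩
    rw [card_union_of_disjoint, h4]
    · omega
    · exact disjoint_of_subset_right h3 disjoint_sdiff
  have hc : ∀ T : ι, ∃ c : ↥(cycles k n d p e),
      (∀ T', c.1 T' ≠ 0 → T'.card = p ∧ ∀ a ∈ T', a ∈ D ∪ T.1 ∨ ∃ i, a = pure n d i) ∧
      ∃ ε : k, ε ≠ 0 ∧ c.1 (D ∪ T.1) = monomial f ε := by
    intro T
    obtain ⟨c, g1, g2, g3, g4⟩ := exists_cycle (k := k) f Z j hj hZ (D ∪ T.1) (hl T).1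
    have g2' : ∀ T', c T' ≠ 0 → T'.card = p ∧ ∀ a ∈ T', a ∈ D ∪ T.1 ∨ ∃ i, a = pure n d i := by
      intro T' hT'
      obtain ⟨g5, g6⟩ := g2 T' hT'
      exact ⟨g5.trans (hl T).2, g6⟩
    refine ⟨⟨c, ?_, ?_⟩, g2', g4⟩
    · refine ⟨fun T' hT' => ?_, fun T' => ?_⟩
      · by_contra hne
        exact hT' (g2' T' hne).1
      · rcases g3 T' with h0 | ⟨e, ε, he1, _, he3⟩
        · rw [h0]; exact isHomogeneous_zero _ _ _
        · rw [he3]
          exact isHomogeneous_monomial _ (he1.trans hf)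
    · exact LinearMap.mem_ker.2 g1
  choose v hv1 hv2 using hc
  set B := Bd.submoduleOf (cycles k n d p e) with hB
  have hphi : ∀ T : ι, B ≤ LinearMap.ker (phi (k := k) f (D ∪ T.1) p e) := by
    intro T c hc
    rw [hB, Submodule.submoduleOf, Submodule.mem_comap] at hc
    obtain ⟨c', hc'⟩ := hBd hc
    change diff k n d c' = c.1 at hc'
    rw [LinearMap.mem_ker]
    show coeff f (c.1 (D ∪ T.1)) = 0
    rw [← hc']
    exact coeff_diff f _ (fun a ha => mem_union_left _ (hD a ha)) c'
  have hdelta : ∀ T T' : ι, T ≠ T' → (v T).1 (D ∪ T'.1) = 0 := by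
    intro T T' hne
    by_contra h0
    obtain ⟨_, h5⟩ := hv1 T _ h0
    have h6 : D ∪ T'.1 ⊆ D ∪ T.1 := by
      intro a ha
      rcases h5 a ha with h | ⟨i, h⟩
      · exact h
      · exact absurd h (hZ a ((hl T').1 ha) i)
    have h7 := eq_of_subset_of_card_le h6 (by rw [(hl T).2, (hl T').2])
    apply hne
    apply Subtype.ext
    have h8 : ∀ S : ι, S.1 = (D ∪ S.1) \ D := by
      intro S
      have h9 : Disjoint D S.1 :=
        disjoint_of_subset_right (mem_powersetCard.1 S.2).1 disjoint_sdiff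
      rw [union_sdiff_left, Finset.sdiff_eq_self_of_disjoint h9.symm]
    rw [h8 T, h8 T', h7]
  have hli : LinearIndependent k (fun T : ι => (Submodule.Quotient.mk (v T) : _ ⧸ B)) := by
    rw [linearIndependent_iff']
    intro s g hg T hT
    have h10 := congrArg (B.liftQ (phi (k := k) f (D ∪ T.1) p e) (hphi T)) hg
    rw [map_sum, map_zero] at h10
    have h11 : ∀ T' ∈ s, (B.liftQ (phi (k := k) f (D ∪ T.1) p e) (hphi T))
        (g T' • (Submodule.Quotient.mk (v T') : _ ⧸ B)) =
        g T' * coeff f ((v T').1 (D ∪ T.1)) := by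
      intro T' _
      rw [map_smul]
      rfl
    rw [sum_congr rfl h11, sum_eq_single_of_mem T hT] at h10
    · obtain ⟨ε, hε, h12⟩ := hv2 T
      rw [h12, coeff_monomial, if_pos rfl] at h10
      exact (mul_eq_zero.1 h10).resolve_right hε
    · intro T' _ hne
      rw [hdelta T' T hne, coeff_zero, mul_zero]
  have h13 := hli.cardinal_le_rank
  refine le_trans (le_of_eq ?_) h13
  rw [hι, Cardinal.mk_coe_finset, card_powersetCard, card_sdiff_of_subset hDZ]

theorem main (k : Type) [Field k] (n d p : ℕ) (b q : ℤ) (s c : ℕ) (hs : s ≤ n) (hc : c + 1 ≤ d)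
    (he : q * d + b = s * (d - 1) + c) [LinearOrder (Mon n d)] (lam mu : ℕ)
    (hlam : (lam : ℤ) = (d + s).choose s - (d + s - c - 1).choose s - s)
    (hmu : (mu : ℤ) = (d + n).choose n - (d + n - s).choose (n - s) + (n - s + c).choose (n - s)
      - s - 1)
    (hp : lam ≤ p) :
    (((mu - lam).choose (p - lam) : ℕ) : Cardinal) ≤ Module.rank k (KpqZ k n d b p q) := by
  classical
  have e1 := card_DD (n := n) s c hs hc
  have e2 := card_ZZ (n := n) s c hs hc
  have hD : (DD n d s c).card = lam := by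
    have : ((DD n d s c).card : ℤ) + (d + s - c - 1).choose s + s = (d + s).choose s := by
      exact_mod_cast e1
    omega
  have hZ : (ZZ n d s c).card = mu := by
    have : ((ZZ n d s c).card : ℤ) + (d + n - s).choose (n - s) + s + 1 =
      (d + n).choose n + (n - s + c).choose (n - s) := by exact_mod_cast e2
    omega
  have hj : ∀ a : Mon n d, ∃ j : Fin (n + 1), a ∈ ZZ n d s c → d ≤ fexp n d s c j + a.exp j := by
    intro a
    by_cases h : a ∈ ZZ n d s c
    · obtain ⟨j, hj⟩ := (mem_ZZ.1 h).2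
      exact ⟨j, fun _ => hj⟩
    · exact ⟨0, fun h' => absurd h' h⟩
  choose j hj using hj
  have hDZ : DD n d s c ⊆ ZZ n d s c := by
    intro a ha
    have h1 : a.exp ≤ fexp n d s c := mem_DD.1 ha
    refine mem_ZZ.2 ⟨fun i hi => ?_, ?_⟩
    · have h2 := h1 i
      rw [(pure_iff a i).1 hi, Finsupp.single_eq_same, fexp_apply] at h2
      split_ifs at h2 <;> omega
    · by_contra hcon
      push Not at hcon
      have h3 : ∀ i : Fin (n + 1), i.1 < s → a.exp i = 0 := by
        intro i hi
        have := hcon i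
        rw [fexp_apply, if_pos hi] at this
        omega
      have h4 : a.exp.degree ≤ c := by
        rw [Finsupp.degree_eq_sum]
        calc ∑ i, a.exp i ≤
              ∑ i : Fin (n + 1), (if i = (⟨s, by omega⟩ : Fin (n + 1)) then c else 0) := by
              apply sum_le_sum
              intro i _
              have h5 := h1 i
              rw [fexp_apply] at h5
              by_cases hi : i.1 < s
              · rw [h3 i hi]; exact Nat.zero_le _
              · rw [if_neg hi] at h5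
                by_cases hi2 : i.1 = s
                · rw [if_pos hi2] at h5
                  rw [if_pos (Fin.ext hi2)]
                  exact h5
                · rw [if_neg hi2] at h5
                  omega
          _ = c := by simp
      rw [a.degree_exp] at h4
      omega
  have hee : q * d + b = ((s * (d - 1) + c : ℕ) : ℤ) := by
    rw [he]
    push_cast [Nat.cast_sub (show 1 ≤ d by omega)]
    ring
  have hCy : cyclesZ k n d p (q * d + b) = cycles k n d p (s * (d - 1) + c) := by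
    unfold cyclesZ cycles chainsZ
    rw [hee, if_pos (Int.natCast_nonneg _), Int.toNat_natCast]
  have hBd : (chainsZ k n d (p + 1) ((q - 1) * d + b)).map (diff k n d) ≤
      LinearMap.range (diff k n d) := LinearMap.map_le_range
  have := rank_bound_gen (k := k) (fexp n d s c) p (s * (d - 1) + c)
    (degree_fexp s c hs (by omega)) (DD n d s c) (ZZ n d s c) j (fun a ha => hj a ha)
    (fun a ha => (mem_ZZ.1 ha).1) (fun a ha => mem_DD.2 ha) hDZ (by rw [hD]; exact hp)
    _ _ hCy hBd
  rwa [hD, hZ] at this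

end Pool.TH855.VeroneseZ
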