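import Pool.Agent.TH855.VeroneseZ.Main

set_option autoImplicit false

namespace Pool.TH855.VeroneseZ

open MvPolynomial Finset Pool.TH855.Veronese

variable {k : Type} [Field k] {n d : ℕ}

/-- membership in the ideal `(x_0^d, …, x_{i-1}^d)` -/
def MI (d i : ℕ) (g : MvPolynomial (Fin (n + 1)) k) : Prop :=
  ∀ m ∈ g.support, ∃ j : Fin (n + 1), j.1 < i ∧ d ≤ m j

lemma MI_zero (i : ℕ) : MI d i (0 : MvPolynomial (Fin (n + 1)) k) := by
  intro m hm; simp at hm

lemma MI_add {i : ℕ} {g h : MvPolynomial (Fin (n + 1)) k} (hg : MI d i g) (hh : MI d i h) :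
    MI d i (g + h) := by
  classical
  intro m hm
  rcases mem_union.1 (support_add hm) with h1 | h1
  · exact hg m h1
  · exact hh m h1

lemma MI_neg {i : ℕ} {g : MvPolynomial (Fin (n + 1)) k} (hg : MI d i g) : MI d i (-g) := by
  intro m hm
  rw [support_neg] at hm
  exact hg m hm

lemma MI_sum {ι : Type} {i : ℕ} (s : Finset ι) (g : ι → MvPolynomial (Fin (n + 1)) k)
    (hg : ∀ x ∈ s, MI d i (g x)) : MI d i (∑ x ∈ s, g x) := by
  classical
  induction s using Finset.induction_on with
  | empty => simpa using MI_zero i
  | insert a s ha ih =>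
    rw [sum_insert ha]
    exact MI_add (hg a (mem_insert_self _ _)) (ih fun x hx => hg x (mem_insert_of_mem hx))

lemma MI_mul {i : ℕ} (h : MvPolynomial (Fin (n + 1)) k) {g : MvPolynomial (Fin (n + 1)) k}
    (hg : MI d i g) : MI d i (h * g) := by
  classical
  intro m hm
  obtain ⟨m1, _, m2, hm2, rfl⟩ := mem_add.1 (support_mul _ _ hm)
  obtain ⟨j, hj, hd⟩ := hg m2 hm2
  exact ⟨j, hj, by rw [Finsupp.add_apply]; omega⟩

lemma MI_mul' {i : ℕ} {h : MvPolynomial (Fin (n + 1)) k} (g : MvPolynomial (Fin (n + 1)) k)
    (hh : MI d i h) : MI d i (h * g) := by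
  rw [mul_comm]; exact MI_mul g hh

lemma MI_mono {i : ℕ} {g : MvPolynomial (Fin (n + 1)) k} (hg : MI d i g) : MI d (i + 1) g := by
  intro m hm
  obtain ⟨j, hj, hd⟩ := hg m hm
  exact ⟨j, by omega, hd⟩

lemma MI_cancel {i : Fin (n + 1)} {g : MvPolynomial (Fin (n + 1)) k}
    (hg : MI d i.1 (monomial (Finsupp.single i d) 1 * g)) : MI d i.1 g := by
  intro m hm
  have h1 : Finsupp.single i d + m ∈ (monomial (Finsupp.single i d) (1 : k) * g).support := by
    rw [mem_support_iff, coeff_monomial_mul, one_mul]
    exact mem_support_iff.1 hm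
  obtain ⟨j, hj, hd⟩ := hg _ h1
  refine ⟨j, hj, ?_⟩
  rw [Finsupp.add_apply, Finsupp.single_apply, if_neg] at hd
  · omega
  · rintro rfl
    exact lt_irrefl _ hj

lemma MI_decomp {i : Fin (n + 1)} {e : ℕ} {g : MvPolynomial (Fin (n + 1)) k}
    (hg : MI d (i.1 + 1) g) (he : g.IsHomogeneous e) :
    ∃ y : MvPolynomial (Fin (n + 1)) k, y.IsHomogeneous (e - d) ∧ (g = 0 → y = 0) ∧
      MI d i.1 (g - monomial (Finsupp.single i d) 1 * y) := by
  classical
  set A := g.support.filter (fun m => ¬ ∃ j : Fin (n + 1), j.1 < i.1 ∧ d ≤ m j) with hA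
  have hAi : ∀ m ∈ A, d ≤ m i := by
    intro m hm
    obtain ⟨h1, h2⟩ := mem_filter.1 hm
    obtain ⟨j, hj, hd⟩ := hg m h1
    by_cases hji : j.1 < i.1
    · exact absurd ⟨j, hji, hd⟩ h2
    · have : j = i := Fin.ext (by omega)
      rw [← this]; exact hd
  refine ⟨∑ m ∈ A, monomial (m - Finsupp.single i d) (coeff m g), ?_, ?_, ?_⟩
  · refine IsHomogeneous.sum _ _ _ fun m hm => ?_
    apply isHomogeneous_monomial
    have h1 : m.degree = e := by
      rw [Finsupp.degree_eq_weight_one]
      exact he (mem_support_iff.1 (mem_filter.1 hm).1)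
    have h2 : m - Finsupp.single i d + Finsupp.single i d = m := by
      apply tsub_add_cancel_of_le
      intro j
      rw [Finsupp.single_apply]
      split_ifs with h
      · rw [← h]; exact hAi m hm
      · exact Nat.zero_le _
    have h3 := congrArg Finsupp.degree h2
    rw [map_add, Finsupp.degree_single, h1] at h3
    omega
  · intro h0
    rw [hA, h0]
    simp
  · have h1 : monomial (Finsupp.single i d) 1 *
        ∑ m ∈ A, monomial (m - Finsupp.single i d) (coeff m g) =
        ∑ m ∈ A, monomial m (coeff m g) := by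
      rw [mul_sum]
      refine sum_congr rfl fun m hm => ?_
      rw [monomial_mul, one_mul, add_tsub_cancel_of_le]
      intro j
      rw [Finsupp.single_apply]
      split_ifs with h
      · rw [← h]; exact hAi m hm
      · exact Nat.zero_le _
    rw [h1]
    have h2 : g - ∑ m ∈ A, monomial m (coeff m g) =
        ∑ m ∈ g.support.filter (fun m => ∃ j : Fin (n + 1), j.1 < i.1 ∧ d ≤ m j),
          monomial m (coeff m g) := by
      have h3 := sum_filter_add_sum_filter_not g.support
        (fun m => ∃ j : Fin (n + 1), j.1 < i.1 ∧ d ≤ m j) (fun m => monomial m (coeff m g))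
      rw [← hA] at h3
      calc g - ∑ m ∈ A, monomial m (coeff m g) =
            ∑ x ∈ g.support, monomial x (coeff x g) - ∑ m ∈ A, monomial m (coeff m g) := by
            rw [← as_sum]
        _ = _ := by rw [← h3, add_sub_cancel_right]
    rw [h2]
    apply MI_sum
    intro m hm m' hm'
    have h4 : m' = m := by
      by_contra hne
      rw [mem_support_iff, coeff_monomial, if_neg (Ne.symm hne)] at hm'
      exact hm' rfl
    rw [h4]
    exact (mem_filter.1 hm).2

variable [LinearOrder (Mon n d)]

/-- `T` avoids `x_0^d, …, x_{i-1}^d` -/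
def Av (i : ℕ) (T : Finset (Mon n d)) : Prop := ∀ j : Fin (n + 1), j.1 < i → pure n d j ∉ T

/-- the subcomplex of families vanishing modulo `x_j^d` and `e_{x_j^d}`, `j < i` -/
def JJ (i : ℕ) (c : Fam k n d) : Prop := ∀ T, Av i T → MI d i (c T)

omit [LinearOrder (Mon n d)] in
lemma pure_inj (hd : 1 ≤ d) {i j : Fin (n + 1)} (h : pure n d i = pure n d j) : i = j := by
  have h1 := congrArg (fun a : Mon n d => a.exp i) h
  simp only [Veronese.pure, Finsupp.single_eq_same, Finsupp.single_apply] at h1
  split_ifs at h1 with h2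
  · exact h2.symm
  · omega

lemma exact_aux (hd : 1 ≤ d) {p e : ℕ} (he : (n + 1) * (d - 1) < e) (t : ℕ) (ht : t ≤ n + 1) :
    ∀ c : Fam k n d, c ∈ chains k n d p e → JJ (n + 1 - t) (diff k n d c) →
      ∃ b : Fam k n d, b ∈ chains k n d (p + 1) (e - d) ∧ JJ (n + 1 - t) (c - diff k n d b) := by
  classical
  have hde : d ≤ e := by
    have : d - 1 ≤ (n + 1) * (d - 1) := Nat.le_mul_of_pos_left _ (by omega)
    omega
  induction t with
  | zero =>
    intro c hc _
    refine ⟨0, Submodule.zero_mem _, ?_⟩
    rw [map_zero, sub_zero]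
    intro T _ m hm
    by_contra hcon
    push Not at hcon
    have h1 : m.degree = e := by
      rw [Finsupp.degree_eq_weight_one]
      exact hc.2 T (mem_support_iff.1 hm)
    rw [Finsupp.degree_eq_sum] at h1
    have h2 : ∑ i, m i ≤ ∑ _i : Fin (n + 1), (d - 1) := by
      apply sum_le_sum
      intro i _
      have := hcon i (by simp only [Nat.sub_zero]; exact i.2)
      omega
    rw [sum_const, card_univ, Fintype.card_fin, smul_eq_mul] at h2
    omega
  | succ t ih =>
    intro c hc hJ
    set i := n + 1 - (t + 1) with hi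
    have hi1 : n + 1 - t = i + 1 := by omega
    have hin : i < n + 1 := by omega
    set i' : Fin (n + 1) := ⟨i, hin⟩ with hi'
    have hJ' : JJ (n + 1 - t) (diff k n d c) := by
      rw [hi1]
      intro T hT
      exact MI_mono (hJ T fun j hj => hT j (by omega))
    obtain ⟨b, hb, hb'⟩ := ih (by omega) c hc hJ'
    rw [hi1] at hb'
    set c1 := c - diff k n d b with hc1
    have hc1m : c1 ∈ chains k n d p e := by
      have h1 := diff_mem_chains hb
      rw [Nat.sub_add_cancel hde] at h1
      exact Submodule.sub_mem _ hc h1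
    have hy : ∀ T, ∃ y : MvPolynomial (Fin (n + 1)) k, y.IsHomogeneous (e - d) ∧
        (c1 T = 0 → y = 0) ∧
        (Av (i + 1) T → MI d i (c1 T - monomial (Finsupp.single i' d) 1 * y)) := by
      intro T
      by_cases hT : Av (i + 1) T
      · obtain ⟨y, h1, h2, h3⟩ := MI_decomp (i := i') (hb' T hT) (hc1m.2 T)
        exact ⟨y, h1, h2, fun _ => h3⟩
      · exact ⟨0, isHomogeneous_zero _ _ _, fun _ => rfl, fun h => absurd h hT⟩
    choose y hy1 hy2 hy3 using hy
    have hym : wedge (pure n d i') y ∈ chains k n d (p + 1) (e - d) := by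
      refine ⟨fun T hT => ?_, fun T => ?_⟩
      · unfold wedge
        split_ifs with h
        · have : c1 (T.erase (pure n d i')) = 0 := by
            apply hc1m.1
            rw [card_erase_of_mem h]
            have : 0 < T.card := card_pos.2 ⟨_, h⟩
            omega
          rw [hy2 _ this, mul_zero]
        · rfl
      · unfold wedge
        split_ifs with h
        · rcases sg_eq (k := k) (pure n d i') T with hs | hs
          · rw [hs, one_mul]; exact hy1 _
          · rw [hs, neg_one_mul]; exact (hy1 _).neg
        · exact isHomogeneous_zero _ _ _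
    refine ⟨b + wedge (pure n d i') y, Submodule.add_mem _ hb hym, ?_⟩
    set c2 := c - diff k n d (b + wedge (pure n d i') y) with hc2
    have hc2' : ∀ T, c2 T = c1 T - (monomial (Finsupp.single i' d) 1 * y T -
        wedge (pure n d i') (diff k n d y) T) := by
      intro T
      rw [hc2, hc1, map_add]
      simp only [Pi.sub_apply, Pi.add_apply]
      rw [diff_wedge]
      simp only [Veronese.pure]
      ring
    -- case 1
    have case1 : ∀ T, Av (i + 1) T → MI d i (c2 T) := by
      intro T hT
      have hPT : pure n d i' ∉ T := hT i' (by simp [hi'])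
      have : wedge (pure n d i') (diff k n d y) T = 0 := by
        unfold wedge; rw [if_neg hPT]
      rw [hc2', this, sub_zero]
      exact hy3 T hT
    intro T hT
    by_cases hPT : pure n d i' ∈ T
    · -- case 2
      set T0 := T.erase (pure n d i') with hT0
      have hT0Av : Av (i + 1) T0 := by
        intro j hj hmem
        rw [hT0, mem_erase] at hmem
        by_cases hji : j.1 < i
        · exact hT j hji hmem.2
        · have : j = i' := Fin.ext (by simp only [hi']; omega)
          exact hmem.1 (by rw [this])
      have hdc2 : diff k n d c2 T0 = diff k n d c T0 := by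
        rw [hc2, map_sub, diff_diff, sub_zero]
      have h1 : MI d i (diff k n d c2 T0) := by
        rw [hdc2]
        exact hJ T0 fun j hj => hT0Av j (by omega)
      rw [diff_apply] at h1
      have hmem : pure n d i' ∈ T0ᶜ := by simp [hT0]
      rw [← add_sum_erase _ _ hmem] at h1
      have h2 : MI d i (∑ a ∈ T0ᶜ.erase (pure n d i'),
          sg k a T0 * (monomial a.exp 1 * c2 (insert a T0))) := by
        apply MI_sum
        intro a ha
        rw [mem_erase, mem_compl] at ha
        apply MI_mul
        by_cases hap : ∃ j : Fin (n + 1), j.1 < i ∧ a = pure n d j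
        · obtain ⟨j, hj, rfl⟩ := hap
          apply MI_mul'
          intro m hm
          refine ⟨j, hj, ?_⟩
          have h4 : m = (pure n d j).exp := by
            by_contra hne
            rw [mem_support_iff, coeff_monomial, if_neg (Ne.symm hne)] at hm
            exact hm rfl
          rw [h4]
          simp [Veronese.pure]
        · apply MI_mul
          apply case1
          intro j hj hjm
          rw [mem_insert] at hjm
          rcases hjm with h | h
          · by_cases hji : j.1 < i
            · exact hap ⟨j, hji, h.symm⟩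
            · have : j = i' := Fin.ext (by simp only [hi']; omega)
              rw [this] at h
              exact ha.1 h.symm
          · exact hT0Av j hj h
      have h3 : MI d i (sg k (pure n d i') T0 *
          (monomial (pure n d i').exp 1 * c2 (insert (pure n d i') T0))) := by
        have := MI_add h1 (MI_neg h2)
        rwa [add_neg_cancel_right] at this
      rw [insert_erase hPT] at h3
      have h5 : MI d i (monomial (pure n d i').exp 1 * c2 T) := by
        rcases sg_eq (k := k) (pure n d i') T0 with hs | hs
        · rwa [hs, one_mul] at h3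
        · rw [hs, neg_one_mul] at h3
          have := MI_neg h3
          rwa [neg_neg] at this
      exact MI_cancel (i := i') h5
    · apply case1
      intro j hj
      by_cases hji : j.1 < i
      · exact hT j hji
      · have : j = i' := Fin.ext (by simp only [hi']; omega)
        rw [this]; exact hPT

/-- exactness beyond the socle degree -/
theorem exact_above (hd : 1 ≤ d) {p e : ℕ} (he : (n + 1) * (d - 1) < e) {c : Fam k n d}
    (hc : c ∈ cycles k n d p e) : c ∈ (chains k n d (p + 1) (e - d)).map (diff k n d) := by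
  obtain ⟨b, hb, h⟩ := exact_aux hd he (n + 1) le_rfl c hc.1 (by
    intro T _
    rw [LinearMap.mem_ker.1 hc.2]
    exact MI_zero _)
  refine ⟨b, hb, ?_⟩
  rw [Nat.sub_self] at h
  funext T
  have h1 := h T (fun j hj => absurd hj (Nat.not_lt_zero _))
  have h2 : (c - diff k n d b) T = 0 := by
    by_contra hne
    obtain ⟨m, hm⟩ := support_nonempty.2 hne
    obtain ⟨j, hj, _⟩ := h1 m hm
    exact absurd hj (Nat.not_lt_zero _)
  rw [Pi.sub_apply, sub_eq_zero] at h2
  exact h2.symm

/-- rows outside `0 ≤ qd+b ≤ (n+1)(d-1)` vanish -/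
theorem row_vanish (k : Type) [Field k] (n d p : ℕ) (b q : ℤ) (hd : 1 ≤ d)
    [LinearOrder (Mon n d)] (h : q * d + b < 0 ∨ ((n + 1) * (d - 1) : ℤ) < q * d + b) :
    Subsingleton (KpqZ k n d b p q) := by
  rw [Submodule.Quotient.subsingleton_iff, Submodule.submoduleOf,
    Submodule.comap_subtype_eq_top]
  intro c hc
  unfold cyclesZ chainsZ at hc
  rcases h with h | h
  · rw [if_neg (by omega)] at hc
    have : c = 0 := by simpa using hc.1
    rw [this]
    exact Submodule.zero_mem _
  · have h0 : (0 : ℤ) ≤ (n + 1) * (d - 1) := by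
      apply mul_nonneg <;> omega
    obtain ⟨e, he⟩ := Int.eq_ofNat_of_zero_le (show (0 : ℤ) ≤ q * d + b by omega)
    rw [he, if_pos (Int.natCast_nonneg _), Int.toNat_natCast] at hc
    have he1 : (n + 1) * (d - 1) < e := by
      have h2 : (((n + 1) * (d - 1) : ℕ) : ℤ) < (e : ℤ) := by
        rw [← he]
        push_cast [Nat.cast_sub hd]
        exact h
      exact_mod_cast h2
    have hde : d ≤ e := by
      have : d - 1 ≤ (n + 1) * (d - 1) := Nat.le_mul_of_pos_left _ (by omega)
      omega
    have h3 := exact_above hd he1 hc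
    have h4 : chainsZ k n d (p + 1) ((q - 1) * d + b) = chains k n d (p + 1) (e - d) := by
      have h5 : (q - 1) * d + b = ((e - d : ℕ) : ℤ) := by
        rw [Nat.cast_sub hde, sub_mul, one_mul]
        omega
      unfold chainsZ
      rw [h5, if_pos (Int.natCast_nonneg _), Int.toNat_natCast]
    rw [h4]
    exact h3

end Pool.TH855.VeroneseZ
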